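import Pool.Agent.W516.K3.Defs

/-!
Project DK, task IRR: the irreducibility which follows from the Clifford algebra.
-/

set_option autoImplicit false
set_option linter.unusedSectionVars false

namespace W327.DK

open Module Pool.Agent.W516.K3

section cliff

variable {F T H : Type} [Field F] [CharZero F] [AddCommGroup T] [Module F T]
  [AddCommGroup H] [Module F H] {b : T →ₗ[F] T →ₗ[F] F} {γ : T →ₗ[F] Module.End F H}
  (hcl : ∀ u v, γ u * γ v + γ v * γ u = (2 * b u v) • (1 : Module.End F H))

include hcl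

theorem gsq (u : T) : γ u * γ u = b u u • (1 : Module.End F H) := by
  have h := hcl u u
  have h2 : (2 : F) • (γ u * γ u) = (2 : F) • (b u u • (1 : Module.End F H)) := by
    rw [smul_smul, ← h, two_smul]
  exact smul_right_injective _ (two_ne_zero) h2

theorem ganti {u v : T} (h : b u v = 0) : γ v * γ u = - (γ u * γ v) := by
  have h1 := hcl u v
  rw [h, mul_zero, zero_smul] at h1
  exact (neg_eq_of_add_eq_zero_right h1).symm

theorem exists_ann [Nontrivial H] [FiniteDimensional F T] (W : Submodule F T)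
    (hW : ∀ w ∈ W, ∀ w' ∈ W, b w w' = 0) : ∃ s : H, s ≠ 0 ∧ ∀ w ∈ W, γ w s = 0 := by
  classical
  have key : ∀ t : Finset T, (∀ w ∈ t, w ∈ W) → ∃ s : H, s ≠ 0 ∧ ∀ w ∈ t, γ w s = 0 := by
    intro t
    induction t using Finset.induction_on with
    | empty =>
      intro _
      obtain ⟨s, hs⟩ := exists_ne (0 : H)
      exact ⟨s, hs, by simp⟩
    | insert w t hw ih =>
      intro ht
      obtain ⟨s, hs, hst⟩ := ih fun x hx => ht x (Finset.mem_insert_of_mem hx)
      have hwW := ht w (Finset.mem_insert_self w t)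
      by_cases h0 : γ w s = 0
      · refine ⟨s, hs, ?_⟩
        intro x hx
        rcases Finset.mem_insert.1 hx with rfl | hx
        · exact h0
        · exact hst x hx
      · refine ⟨γ w s, h0, ?_⟩
        intro x hx
        rcases Finset.mem_insert.1 hx with rfl | hx
        · have h1 := congrArg (fun f : Module.End F H => f s) (gsq hcl x)
          simp only [Module.End.mul_apply] at h1
          rw [h1, hW x hwW x hwW, zero_smul, LinearMap.zero_apply]
        · have h1 := congrArg (fun f : Module.End F H => f s)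
            (ganti hcl (hW w hwW x (ht x (Finset.mem_insert_of_mem hx))))
          simp only [Module.End.mul_apply, LinearMap.neg_apply] at h1
          rw [h1, hst x hx, map_zero, neg_zero]
  obtain ⟨t, ht⟩ := IsNoetherian.noetherian W
  obtain ⟨s, hs, hst⟩ := key t fun w hw => by rw [← ht]; exact Submodule.subset_span hw
  refine ⟨s, hs, ?_⟩
  intro w hw
  rw [← ht] at hw
  induction hw using Submodule.span_induction with
  | mem x hx => exact hst x hx
  | zero => simp
  | add x y _ _ hx hy => rw [map_add, LinearMap.add_apply, hx, hy, add_zero]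
  | smul a x _ hx => rw [map_smul, LinearMap.smul_apply, hx, smul_zero]

theorem comm_list (l : List T) (v : T) (hv : ∀ u ∈ l, b u v = 0) :
    γ v * (l.map γ).prod = (-1 : F) ^ l.length • ((l.map γ).prod * γ v) := by
  induction l with
  | nil => simp
  | cons u l ih =>
    have h1 := ih fun x hx => hv x (List.mem_cons_of_mem u hx)
    have h2 := ganti hcl (hv u (List.mem_cons_self))
    rw [List.map_cons, List.prod_cons, ← mul_assoc, h2, neg_mul, mul_assoc, h1, List.length_cons,
      pow_succ, mul_smul_comm, mul_neg_one, neg_smul, mul_assoc]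

omit [CharZero F] in
theorem neg_one_pow_smul_smul {M : Type} [AddCommGroup M] [Module F M] (k : ℕ) (x : M) :
    (-1 : F) ^ k • (-1 : F) ^ k • x = x := by
  rw [smul_smul, ← mul_pow, neg_one_mul, neg_neg, one_pow, one_smul]

theorem comm_list' (l : List T) (v : T) (hv : ∀ u ∈ l, b u v = 0) :
    (l.map γ).prod * γ v = (-1 : F) ^ l.length • (γ v * (l.map γ).prod) := by
  rw [comm_list hcl l v hv, neg_one_pow_smul_smul hcl]

theorem comm_mem (hb : ∀ u v, b u v = b v u) (l : List T) (hl : l.Pairwise (fun u v => b u v = 0))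
    (v : T) (hv : v ∈ l) :
    γ v * (l.map γ).prod = (- (-1 : F) ^ l.length) • ((l.map γ).prod * γ v) := by
  induction l with
  | nil => simp at hv
  | cons u l ih =>
    rw [List.pairwise_cons] at hl
    rw [List.map_cons, List.prod_cons, List.length_cons, pow_succ, mul_neg_one, neg_neg]
    rcases List.mem_cons.1 hv with rfl | hv
    · have h1 := comm_list' hcl l v fun x hx => by rw [hb]; exact hl.1 x hx
      rw [mul_assoc (γ v), h1, mul_smul_comm, neg_one_pow_smul_smul hcl]
    · rw [← mul_assoc, ganti hcl (hl.1 v hv), neg_mul, mul_assoc, ih hl.2 hv, mul_smul_comm,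
        neg_smul, neg_neg, mul_assoc]

theorem sq_list (hb : ∀ u v, b u v = b v u) (l : List T) (hl : l.Pairwise (fun u v => b u v = 0))
    (ha : ∀ u ∈ l, b u u ≠ 0) :
    ∃ a : F, a ≠ 0 ∧ (l.map γ).prod * (l.map γ).prod = a • (1 : Module.End F H) := by
  induction l with
  | nil => exact ⟨1, one_ne_zero, by simp⟩
  | cons u l ih =>
    rw [List.pairwise_cons] at hl
    obtain ⟨a, ha0, haP⟩ := ih hl.2 fun x hx => ha x (List.mem_cons_of_mem u hx)
    refine ⟨(-1 : F) ^ l.length * (b u u * a), ?_, ?_⟩
    · refine mul_ne_zero (pow_ne_zero _ (neg_ne_zero.2 one_ne_zero)) (mul_ne_zero ?_ ha0)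
      exact ha u List.mem_cons_self
    · have h1 := comm_list' hcl l u fun x hx => by rw [hb]; exact hl.1 x hx
      rw [List.map_cons, List.prod_cons, mul_assoc, ← mul_assoc (l.map γ).prod, h1, smul_mul_assoc,
        mul_smul_comm, mul_assoc (γ u), haP, ← mul_assoc, gsq hcl, smul_mul_assoc, one_mul,
        smul_smul, smul_smul, mul_assoc]

omit hcl [CharZero F] in
theorem rule_Q {Z P : Module.End F H} {x : Module.End F T} {ε : F} (N : Submodule F T)
    (hZ : ∀ t, Z * γ t - γ t * Z = γ (x t)) (hN : ∀ v ∈ N, x v ∈ N)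
    (hP : ∀ v ∈ N, γ v * P = ε • (P * γ v)) :
    ∀ v ∈ N, γ v * (Z * P - P * Z) = ε • ((Z * P - P * Z) * γ v) := by
  intro v hv
  have h1 : γ v * Z = Z * γ v - γ (x v) := by rw [← hZ v]; abel
  have h2 := hP v hv
  have h3 := hP (x v) (hN v hv)
  rw [mul_sub, ← mul_assoc, ← mul_assoc, h1, h2, sub_mul, h3, mul_assoc Z, h2, smul_mul_assoc,
    mul_assoc P, h1, mul_smul_comm, mul_sub, sub_mul, smul_sub, smul_sub, mul_assoc, mul_assoc]
  abel

end cliff

/-- a totally isotropic hyperplane of the form `w^⊥` -/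
theorem exists_aniso {F T : Type} [Field F] [CharZero F] [AddCommGroup T] [Module F T]
    [FiniteDimensional F T] {b : T →ₗ[F] T →ₗ[F] F} (hb : ∀ u v, b u v = b v u)
    (hnd : ∀ u, (∀ v, b u v = 0) → u = 0) (hdim : 3 ≤ finrank F T) {w t : T} (hw : b w w = 0)
    (ht : b w t = 1) : ∃ t', b w t' = 0 ∧ b t' t' ≠ 0 := by
  by_contra hcon
  push Not at hcon
  have hpol : ∀ u v, b w u = 0 → b w v = 0 → b u v = 0 := by
    intro u v hu hv
    have h1 := hcon (u + v) (by rw [map_add, hu, hv, add_zero])
    rw [map_add b, LinearMap.add_apply, map_add, map_add, hcon u hu, hcon v hv, hb v u, zero_add,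
      add_zero, ← two_mul] at h1
    exact (mul_eq_zero.1 h1).resolve_left two_ne_zero
  have hker : LinearMap.ker (b w) ≤ Submodule.span F {w} := by
    intro v hv
    rw [LinearMap.mem_ker] at hv
    have h0 : v - b v t • w = 0 := by
      apply hnd
      intro u
      have h1 : b w (v - b v t • w) = 0 := by
        rw [map_sub, map_smul, hv, hw, smul_zero, sub_zero]
      have h2 : b w (u - b w u • t) = 0 := by
        rw [map_sub, map_smul, ht, smul_eq_mul, mul_one, sub_self]
      have h3 := hpol _ _ h1 h2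
      rw [map_sub (b (v - b v t • w)), map_smul (b (v - b v t • w))] at h3
      have h4 : b (v - b v t • w) t = 0 := by
        rw [map_sub, map_smul, LinearMap.sub_apply, LinearMap.smul_apply, ht, smul_eq_mul, mul_one,
          sub_self]
      rw [h4, smul_zero, sub_zero] at h3
      exact h3
    rw [sub_eq_zero] at h0
    rw [h0]
    exact Submodule.smul_mem _ _ (Submodule.mem_span_singleton_self w)
  have h1 := LinearMap.finrank_range_add_finrank_ker (b w)
  have h2 : finrank F (LinearMap.ker (b w)) ≤ 1 :=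
    (Submodule.finrank_mono hker).trans (by
      have := finrank_span_le_card (R := F) ({w} : Set T)
      simpa using this)
  have h3 : finrank F (LinearMap.range (b w)) ≤ 1 := by
    have := Submodule.finrank_le (LinearMap.range (b w))
    rwa [finrank_self] at this
  omega

theorem T_IRR : S_IRR := by
  intro F T H _ _ _ _ _ _ _ _ _ b γ S hb hnd hdim hcl hZ hsk hA U hU
  classical
  -- stability under the algebra
  have hstab : ∀ (N : Submodule F H), (∀ p ∈ S, ∀ s ∈ N, p.1 s ∈ N) →
      ∀ Z ∈ Algebra.adjoin F {Z | ∃ p ∈ S, p.1 = Z}, ∀ s ∈ N, Z s ∈ N := by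
    intro N hN Z hZ'
    induction hZ' using Algebra.adjoin_induction with
    | mem x hx => obtain ⟨p, hp, rfl⟩ := hx; exact hN p hp
    | algebraMap r => intro s hs; rw [Module.algebraMap_end_apply]; exact N.smul_mem r hs
    | add x y _ _ hx hy => intro s hs; exact N.add_mem (hx s hs) (hy s hs)
    | mul x y _ _ hx hy => intro s hs; exact hx _ (hy s hs)
  set Uo : Submodule F T := LinearMap.BilinForm.orthogonal b U with hUodef
  have hUo : ∀ p ∈ S, ∀ u ∈ Uo, p.2 u ∈ Uo := by
    intro p hp u hu v hv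
    have h1 := hsk p hp v u
    have h2 : b (p.2 v) u = 0 := hu _ (hU p hp v hv)
    rw [h2, zero_add] at h1
    exact h1
  -- the intersection is zero
  have hdisj : U ⊓ Uo = ⊥ := by
    by_contra hne
    obtain ⟨w, hw, hw0⟩ := Submodule.exists_mem_ne_zero_of_ne_bot hne
    have hW : ∀ x ∈ U ⊓ Uo, ∀ y ∈ U ⊓ Uo, b x y = 0 := fun x hx y hy => hy.2 x hx.1
    obtain ⟨s, hs, hsW⟩ := exists_ann hcl (U ⊓ Uo) hW
    let N : Submodule F H :=
      { carrier := {s | ∀ w ∈ U ⊓ Uo, γ w s = 0}
        zero_mem' := fun w _ => map_zero _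
        add_mem' := fun {x y} hx hy w hw => by rw [map_add, hx w hw, hy w hw, add_zero]
        smul_mem' := fun c {x} hx w hw => by rw [map_smul, hx w hw, smul_zero] }
    have hN : ∀ p ∈ S, ∀ s ∈ N, p.1 s ∈ N := by
      intro p hp s hs w hw
      have h1 := congrArg (fun f : Module.End F H => f s) (hZ p hp w)
      simp only [LinearMap.sub_apply, Module.End.mul_apply] at h1
      have h2 : γ (p.2 w) s = 0 := hs _ ⟨hU p hp w hw.1, hUo p hp w hw.2⟩
      have h3 : γ w s = 0 := hs w hw
      rw [h2, h3, map_zero, zero_sub, neg_eq_zero] at h1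
      exact h1
    obtain ⟨v, hv⟩ : ∃ v, b w v ≠ 0 := by
      by_contra hcon
      push Not at hcon
      exact hw0 (hnd w hcon)
    set t := (b w v)⁻¹ • v with ht
    have hwt : b w t = 1 := by rw [ht, map_smul, smul_eq_mul, inv_mul_cancel₀ hv]
    obtain ⟨t', ht', ht'a⟩ := exists_aniso hb hnd hdim (hW w hw w hw) hwt
    have h1 : γ w ((γ t * γ t') s) = 0 := hstab N hN _ (hA t t') s hsW w hw
    have e1 := congrArg (fun f : Module.End F H => f (γ t' s)) (hcl w t)
    have e2 := congrArg (fun f : Module.End F H => f s) (hcl w t')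
    simp only [LinearMap.add_apply, Module.End.mul_apply, LinearMap.smul_apply,
      Module.End.one_apply] at e1 e2 h1
    rw [hsW w hw, map_zero, add_zero, ht', mul_zero, zero_smul] at e2
    rw [h1, e2, map_zero, zero_add, hwt, mul_one] at e1
    have e3 : γ t' s = 0 := (smul_eq_zero.1 e1.symm).resolve_left two_ne_zero
    have e4 := congrArg (fun f : Module.End F H => f s) (gsq hcl t')
    simp only [Module.End.mul_apply, LinearMap.smul_apply, Module.End.one_apply] at e4
    rw [e3, map_zero] at e4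
    rcases smul_eq_zero.1 e4.symm with h | h
    · exact ht'a h
    · exact hs h
  by_contra hcon
  push Not at hcon
  obtain ⟨hU1, hU2⟩ := hcon
  have hrefl : LinearMap.BilinForm.IsRefl b := fun x y h => by rw [hb]; exact h
  have hcompl : IsCompl U Uo :=
    (LinearMap.BilinForm.isCompl_orthogonal_iff_disjoint hrefl).2 (disjoint_iff.2 hdisj)
  have hpol : ∀ (N : Submodule F T), (∀ v ∈ N, b v v = 0) → ∀ u ∈ N, ∀ v ∈ N, b u v = 0 := by
    intro N hN u hu v hv
    have h1 := hN (u + v) (N.add_mem hu hv)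
    rw [map_add b, LinearMap.add_apply, map_add, map_add, hN u hu, hN v hv, hb v u, zero_add,
      add_zero, ← two_mul] at h1
    exact (mul_eq_zero.1 h1).resolve_left two_ne_zero
  have hdec : ∀ z : T, ∃ x ∈ U, ∃ y ∈ Uo, z = x + y := by
    intro z
    have h1 : z ∈ U ⊔ Uo := by rw [hcompl.sup_eq_top]; trivial
    obtain ⟨x, hx, y, hy, h2⟩ := Submodule.mem_sup.1 h1
    exact ⟨x, hx, y, hy, h2.symm⟩
  -- an anisotropic vector of the complement
  obtain ⟨v₀, hv₀, hv₀a⟩ : ∃ v ∈ Uo, b v v ≠ 0 := by
    by_contra hc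
    push Not at hc
    apply hU2
    have h1 : Uo = ⊥ := by
      rw [eq_bot_iff]
      intro v hv
      rw [Submodule.mem_bot]
      apply hnd
      intro z
      obtain ⟨x, hx, y, hy, rfl⟩ := hdec z
      have h2 : b x v = 0 := hv x hx
      rw [map_add, hb v x, h2, zero_add]
      exact hpol Uo hc v hv y hy
    have h2 := hcompl.sup_eq_top
    rwa [h1, sup_bot_eq] at h2
  -- an orthogonal basis
  let _ : Invertible (2 : F) := invertibleOfNonzero two_ne_zero
  obtain ⟨e, he⟩ := LinearMap.BilinForm.exists_orthogonal_basis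
    (B := LinearMap.BilinForm.restrict b U) ⟨fun x y => hb x y⟩
  have heo : ∀ i j, i ≠ j → b (e i : T) (e j : T) = 0 := fun i j hij => he hij
  have hspan : ∀ (N : Submodule F T), (∀ i, (e i : T) ∈ N) → ∀ u ∈ U, u ∈ N := by
    intro N hN u hu
    have h1 : (⊤ : Submodule F U) ≤ N.comap U.subtype := by
      rw [← e.span_eq, Submodule.span_le]
      rintro _ ⟨i, rfl⟩
      exact hN i
    exact h1 (show (⟨u, hu⟩ : U) ∈ ⊤ from trivial)
  have hea : ∀ i, b (e i : T) (e i : T) ≠ 0 := by
    intro i hi
    have h1 : (e i : T) ∈ Uo := by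
      intro u hu
      have h2 := hspan (LinearMap.ker (b (e i : T))) (fun j => by
        rw [LinearMap.mem_ker]
        by_cases hij : i = j
        · rw [← hij]; exact hi
        · exact heo i j hij) u hu
      rw [LinearMap.mem_ker] at h2
      show b u (e i : T) = 0
      rw [hb]; exact h2
    have h2 : (e i : T) ∈ U ⊓ Uo := ⟨(e i).2, h1⟩
    rw [hdisj, Submodule.mem_bot] at h2
    exact e.ne_zero i (Subtype.ext h2)
  have hk : 0 < finrank F U := by
    rw [Nat.pos_iff_ne_zero]
    intro h0
    exact hU1 (Submodule.finrank_eq_zero.1 h0)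
  set u₀ : T := (e ⟨0, hk⟩ : T) with hu₀
  have hu₀U : u₀ ∈ U := (e ⟨0, hk⟩).2
  have hu₀a : b u₀ u₀ ≠ 0 := hea _
  set l : List T := List.ofFn (fun i => (e i : T)) with hl
  have hlp : l.Pairwise (fun u v => b u v = 0) := by
    rw [hl, List.pairwise_ofFn]
    intro i j hij
    exact heo i j hij.ne
  have hlm : ∀ u ∈ l, ∃ i, u = (e i : T) := by
    intro u hu
    rw [hl, List.mem_ofFn] at hu
    obtain ⟨i, hi⟩ := hu
    exact ⟨i, hi.symm⟩
  set P : Module.End F H := (l.map γ).prod with hP
  set ε : F := - (-1 : F) ^ l.length with hε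
  have hεε : ε * ε = 1 := by
    rw [hε, neg_mul_neg, ← mul_pow, neg_one_mul, neg_neg, one_pow]
  obtain ⟨a, ha0, haP⟩ := sq_list hcl hb l hlp (by
    intro u hu
    obtain ⟨i, rfl⟩ := hlm u hu
    exact hea i)
  have ruleU : ∀ v ∈ U, γ v * P = ε • (P * γ v) := by
    let N : Submodule F T :=
      { carrier := {v | γ v * P = ε • (P * γ v)}
        zero_mem' := by simp
        add_mem' := fun {x y} hx hy => by
          show γ (x + y) * P = ε • (P * γ (x + y))
          have hx' : γ x * P = ε • (P * γ x) := hx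
          have hy' : γ y * P = ε • (P * γ y) := hy
          rw [map_add, add_mul, hx', hy', mul_add, smul_add]
        smul_mem' := fun c {x} hx => by
          show γ (c • x) * P = ε • (P * γ (c • x))
          have hx' : γ x * P = ε • (P * γ x) := hx
          rw [map_smul, smul_mul_assoc, hx', mul_smul_comm, smul_comm] }
    exact hspan N fun i => comm_mem hcl hb l hlp _ (by rw [hl, List.mem_ofFn]; exact ⟨i, rfl⟩)
  have ruleO : ∀ v ∈ Uo, γ v * P = (-ε) • (P * γ v) := by
    intro v hv
    rw [hε, neg_neg]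
    apply comm_list hcl
    intro u hu
    obtain ⟨i, rfl⟩ := hlm u hu
    exact hv _ (e i).2
  -- `P` commutes with everything
  have hcomm : ∀ p ∈ S, p.1 * P = P * p.1 := by
    intro p hp
    have q1 := rule_Q U (hZ p hp) (hU p hp) ruleU
    have q2 := rule_Q Uo (hZ p hp) (hUo p hp) ruleO
    set Q := p.1 * P - P * p.1 with hQ
    have c1 : ∀ v ∈ U, γ v * (P * Q) = P * Q * γ v := by
      intro v hv
      rw [← mul_assoc, ruleU v hv, smul_mul_assoc, mul_assoc, q1 v hv, mul_smul_comm, smul_smul,
        hεε, one_smul, mul_assoc]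
    have c2 : ∀ v ∈ Uo, γ v * (P * Q) = P * Q * γ v := by
      intro v hv
      rw [← mul_assoc, ruleO v hv, smul_mul_assoc, mul_assoc, q2 v hv, mul_smul_comm, smul_smul,
        neg_mul_neg, hεε, one_smul, mul_assoc]
    have c3 : P * Q * P = P * (P * Q) := by
      have h1 : Commute (P * Q) P := by
        rw [hP]
        apply Commute.list_prod_right
        intro x hx
        obtain ⟨u, hu, rfl⟩ := List.mem_map.1 hx
        obtain ⟨i, rfl⟩ := hlm u hu
        exact (c1 _ (e i).2).symm
      exact h1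
    have c4 : Q * P + P * Q = 0 := by
      rw [hQ, sub_mul, mul_sub, mul_assoc, haP, ← mul_assoc P P, haP, mul_assoc]
      simp
    have c5 : P * Q = - (Q * P) := (neg_eq_of_add_eq_zero_right c4).symm
    have c6 : a • Q = - (a • Q) := by
      have h1 : P * (P * Q) = a • Q := by rw [← mul_assoc, haP, smul_mul_assoc, one_mul]
      have h2 : P * Q * P = - (a • Q) := by
        rw [c5, neg_mul, mul_assoc, haP, mul_smul_comm, mul_one]
      rw [← h2, ← h1, c3]
    have c7 : (2 : F) • (a • Q) = 0 := by
      rw [two_smul]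
      nth_rewrite 1 [c6]
      rw [neg_add_cancel]
    have c8 : Q = 0 := by
      rcases smul_eq_zero.1 c7 with h | h
      · exact absurd h two_ne_zero
      · rcases smul_eq_zero.1 h with h | h
        · exact absurd h ha0
        · exact h
    rw [hQ, sub_eq_zero] at c8
    exact c8
  have hcommA : ∀ Z ∈ Algebra.adjoin F {Z | ∃ p ∈ S, p.1 = Z}, Z * P = P * Z := by
    intro Z hZ'
    induction hZ' using Algebra.adjoin_induction with
    | mem x hx => obtain ⟨p, hp, rfl⟩ := hx; exact hcomm p hp
    | algebraMap r => exact Algebra.commutes r P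
    | add x y _ _ hx hy => rw [add_mul, mul_add, hx, hy]
    | mul x y _ _ hx hy => rw [mul_assoc, hy, ← mul_assoc, hx, mul_assoc]
  have f1 := hcommA _ (hA u₀ v₀)
  have f2 : γ u₀ * γ v₀ * P = - (P * (γ u₀ * γ v₀)) := by
    rw [mul_assoc, ruleO v₀ hv₀, mul_smul_comm, ← mul_assoc, ruleU u₀ hu₀U, smul_mul_assoc,
      smul_smul, neg_mul, hεε, neg_smul, one_smul, mul_assoc]
  rw [f1] at f2
  have f3 : P * (γ u₀ * γ v₀) = 0 := by
    have h1 : (2 : F) • (P * (γ u₀ * γ v₀)) = 0 := by
      rw [two_smul]
      nth_rewrite 1 [f2]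
      rw [neg_add_cancel]
    exact (smul_eq_zero.1 h1).resolve_left two_ne_zero
  have f4 : γ u₀ * γ v₀ = 0 := by
    have h1 : P * (P * (γ u₀ * γ v₀)) = a • (γ u₀ * γ v₀) := by
      rw [← mul_assoc, haP, smul_mul_assoc, one_mul]
    rw [f3, mul_zero] at h1
    exact (smul_eq_zero.1 h1.symm).resolve_left ha0
  have f5 : (b u₀ u₀ * b v₀ v₀) • (1 : Module.End F H) = 0 := by
    have h1 : γ u₀ * (γ u₀ * γ v₀) * γ v₀ = (b u₀ u₀ * b v₀ v₀) • (1 : Module.End F H) := by
      rw [← mul_assoc, gsq hcl, mul_assoc, gsq hcl, smul_mul_smul_comm, one_mul]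
    rw [← h1, f4, mul_zero, zero_mul]
  rcases smul_eq_zero.1 f5 with h | h
  · exact (mul_ne_zero hu₀a hv₀a) h
  · exact one_ne_zero h

end W327.DK
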